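import Mathlib
import Pool.Agent.Q209.Prod.Lint
import Pool.Agent.Q209.Poly.Binom

open MeasureTheory ProbabilityTheory Filter Topology

namespace Pool.Agent.Results.MP_6abe48_pr.ReversibleRecurrent

noncomputable section

/-! ### Definitions -/

section defs

variable {V : Type}

open Classical in
/-- `P^n(x, y)` -/
def pow (P : V → V → ENNReal) : ℕ → V → V → ENNReal
  | 0, x, y => if x = y then 1 else 0
  | n + 1, x, y => ∑' z, P x z * pow P n z y

/-- `P` is the transition matrix of an irreducible nearest-neighbour Markov chain on the graph `G`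
with finitely many possible steps from every vertex -/
structure IsWalk (G : SimpleGraph V) (P : V → V → ENNReal) : Prop where
  row : ∀ x, ∑' y, P x y = 1
  near : ∀ x y, P x y ≠ 0 → G.Adj x y
  finite : ∀ x, {y | P x y ≠ 0}.Finite
  irred : ∀ x y, Relation.ReflTransGen (fun a b => P a b ≠ 0) x y

/-- existence of a reversing measure -/
def Reversible (P : V → V → ENNReal) : Prop :=
  ∃ m : V → ENNReal, (∀ x, m x ≠ 0 ∧ m x ≠ ⊤) ∧ ∀ x y, m x * P x y = m y * P y x

/-- recurrence: the Green function diverges -/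
def Recurrent (P : V → V → ENNReal) : Prop := ∀ x, ∑' n, pow P n x x = ⊤

/-- `P_x(S_1 = γ_0, …, S_n = γ_{n-1})` -/
def pathProb (P : V → V → ENNReal) (x : V) {n : ℕ} (γ : Fin n → V) : ENNReal :=
  ∏ i : Fin n, P ((Fin.cons x γ : Fin (n + 1) → V) i.castSucc) (γ i)

/-- `W_n(x, β) = E_x[exp(β ∑_{i=1}^n ω(i, S_i) - n Λ(β))]`, where `Λ(β) = log ∫ e^{β t} η(dt)` -/
def W (P : V → V → ENNReal) (η : Measure ℝ) (β : ℝ) (n : ℕ) (x : V) (ω : ℕ × V → ℝ) : ENNReal :=
  ∑' γ : Fin n → V, pathProb P x γ *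
    ENNReal.ofReal (Real.exp (β * ∑ i : Fin n, ω (i.val + 1, γ i) - n * cgf id η β))

/-- law of the environment: i.i.d. with law `η` -/
def envLaw (V : Type) (η : Measure ℝ) : Measure (ℕ × V → ℝ) := Measure.infinitePi fun _ => η

/-- the `L²` critical value
`β₂ = sup {β ≥ 0 : sup_n E[W_n(x, β)²] < ∞ for all x}` -/
def beta2 (P : V → V → ENNReal) (η : Measure ℝ) : ENNReal :=
  ⨆ (b : NNReal) (_ : ∀ x : V, ∃ C : ENNReal, C ≠ ⊤ ∧
    ∀ n, ∫⁻ ω, W P η b n x ω ^ 2 ∂(envLaw V η) ≤ C), (b : ENNReal)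

/-- environment laws: mean `0`, variance `1`, all exponential moments -/
structure IsEnv (η : Measure ℝ) : Prop where
  prob : IsProbabilityMeasure η
  expo : ∀ t : ℝ, Integrable (fun s => Real.exp (t * s)) η
  mean : ∫ s, s ∂η = 0
  var : ∫ s, s ^ 2 ∂η = 1

end defs

/-! ### The second moment -/

section second

variable {V : Type} {P : V → V → ENNReal} {η : Measure ℝ}

/-- one factor -/
def fac (η : Measure ℝ) (β : ℝ) (i : ℕ) (v : V) (ω : ℕ × V → ℝ) : ENNReal :=
  ENNReal.ofReal (Real.exp (β * ω (i + 1, v) - cgf id η β))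

theorem fac_meas (β : ℝ) (i : ℕ) (v : V) : Measurable (fac (V := V) η β i v) := by
  unfold fac
  fun_prop

theorem weight_eq (β : ℝ) (n : ℕ) (γ : Fin n → V) (ω : ℕ × V → ℝ) :
    ENNReal.ofReal (Real.exp (β * ∑ i : Fin n, ω (i.val + 1, γ i) - n * cgf id η β)) =
      ∏ i : Fin n, fac η β i (γ i) ω := by
  unfold fac
  rw [← ENNReal.ofReal_prod_of_nonneg fun i _ => (Real.exp_pos _).le, ← Real.exp_sum]
  congr 2
  rw [Finset.sum_sub_distrib, ← Finset.mul_sum, Finset.sum_const, Finset.card_univ,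
    Fintype.card_fin, nsmul_eq_mul]

/-- `K = e^{Λ(2β) - 2Λ(β)}` -/
def KK (η : Measure ℝ) (β : ℝ) : ENNReal :=
  ENNReal.ofReal (Real.exp (cgf id η (2 * β) - 2 * cgf id η β))

theorem exp_int [IsProbabilityMeasure η] (hη : ∀ t : ℝ, Integrable (fun s => Real.exp (t * s)) η)
    (t c : ℝ) : ∫⁻ s, ENNReal.ofReal (Real.exp (t * s - c)) ∂η =
      ENNReal.ofReal (Real.exp (cgf id η t - c)) := by
  have h1 : ∀ s : ℝ, Real.exp (t * s - c) = Real.exp (t * s) * Real.exp (-c) := by
    intro s; rw [← Real.exp_add]; ring_nf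
  have hi : Integrable (fun s => Real.exp (t * s - c)) η := by
    simp only [h1]
    exact (hη t).mul_const _
  rw [← ofReal_integral_eq_lintegral_ofReal hi (ae_of_all _ fun s => (Real.exp_pos _).le)]
  congr 1
  simp only [h1]
  rw [integral_mul_const, Real.exp_sub, div_eq_mul_inv, ← Real.exp_neg]
  congr 1
  have h2 : mgf id η t = ∫ s, Real.exp (t * s) ∂η := rfl
  rw [← h2, cgf, Real.exp_log (mgf_pos (X := id) (hη t))]

theorem coord_int [IsProbabilityMeasure η] (j : ℕ × V) (f : ℝ → ENNReal) (hf : Measurable f) :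
    ∫⁻ ω, f (ω j) ∂(envLaw V η) = ∫⁻ s, f s ∂η :=
  (measurePreserving_eval_infinitePi (fun _ : ℕ × V => η) j).lintegral_comp hf

open Classical in
theorem pair_int [IsProbabilityMeasure η] (hη : ∀ t : ℝ, Integrable (fun s => Real.exp (t * s)) η)
    (β : ℝ) (i : ℕ) (v v' : V) :
    ∫⁻ ω, fac η β i v ω * fac η β i v' ω ∂(envLaw V η) = if v = v' then KK η β else 1 := by
  have h1 : ∀ v : V, ∫⁻ ω, fac η β i v ω ∂(envLaw V η) = 1 := by
    intro v
    unfold fac
    rw [coord_int (η := η) (i + 1, v) (fun s => ENNReal.ofReal (Real.exp (β * s - cgf id η β)))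
      (by fun_prop), exp_int hη]
    simp
  split_ifs with h
  · subst h
    have h2 : ∀ ω : ℕ × V → ℝ, fac η β i v ω * fac η β i v ω =
        ENNReal.ofReal (Real.exp ((2 * β) * ω (i + 1, v) - 2 * cgf id η β)) := by
      intro ω
      unfold fac
      rw [← ENNReal.ofReal_mul (Real.exp_pos _).le, ← Real.exp_add]
      ring_nf
    simp only [h2]
    rw [coord_int (η := η) (i + 1, v)
      (fun s => ENNReal.ofReal (Real.exp ((2 * β) * s - 2 * cgf id η β))) (by fun_prop),
      exp_int hη]
    rfl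
  · have hind := Q209.Prod.indep_of_dep η {((i + 1, v) : ℕ × V)} {(i + 1, v')}
      (by rw [Finset.disjoint_singleton]; intro hh; exact h (Prod.ext_iff.1 hh).2)
      (fac_meas (η := η) β i v) (fac_meas (η := η) β i v')
      (fun ω ω' hh => by unfold fac; rw [hh _ (Finset.mem_singleton_self _)])
      (fun ω ω' hh => by unfold fac; rw [hh _ (Finset.mem_singleton_self _)])
    have h2 := lintegral_mul_eq_lintegral_mul_lintegral_of_indepFun
      (fac_meas (η := η) β i v) (fac_meas (η := η) β i v') hind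
    simp only [Pi.mul_apply] at h2
    have h3 := h1 v
    have h4 := h1 v'
    unfold envLaw at *
    rw [h2, h3, h4, one_mul]

open Classical in
/-- pair partition function -/
def U (P : V → V → ENNReal) (K : ENNReal) (n : ℕ) (x y : V) : ENNReal :=
  ∑' γ : Fin n → V, ∑' γ' : Fin n → V, pathProb P x γ * pathProb P y γ' *
    ∏ i, (if γ i = γ' i then K else 1)

open Classical in
theorem second_moment [Countable V] [IsProbabilityMeasure η]
    (hη : ∀ t : ℝ, Integrable (fun s => Real.exp (t * s)) η) (β : ℝ) (n : ℕ) (x : V) :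
    ∫⁻ ω, W P η β n x ω ^ 2 ∂(envLaw V η) = U P (KK η β) n x x := by
  have h1 : ∀ ω, W P η β n x ω ^ 2 = ∑' γ : Fin n → V, ∑' γ' : Fin n → V,
      pathProb P x γ * pathProb P x γ' * ∏ i : Fin n, (fac η β i (γ i) ω * fac η β i (γ' i) ω) := by
    intro ω
    rw [sq, W, ← ENNReal.tsum_mul_right]
    refine tsum_congr fun γ => ?_
    rw [← ENNReal.tsum_mul_left]
    refine tsum_congr fun γ' => ?_
    rw [weight_eq, weight_eq, Finset.prod_mul_distrib]
    ring
  have hmf : ∀ (i : ℕ) (v v' : V), Measurable fun ω : ℕ × V → ℝ => fac η β i v ω * fac η β i v' ω :=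
    fun i v v' => (fac_meas β i v).mul (fac_meas β i v')
  have hmp : ∀ γ γ' : Fin n → V, Measurable fun ω : ℕ × V → ℝ =>
      ∏ i : Fin n, (fac η β i (γ i) ω * fac η β i (γ' i) ω) := fun γ γ' =>
    Finset.measurable_fun_prod Finset.univ fun i _ => hmf i.val (γ i) (γ' i)
  have hm : ∀ γ γ' : Fin n → V, Measurable fun ω : ℕ × V → ℝ => pathProb P x γ * pathProb P x γ' *
      ∏ i : Fin n, (fac η β i (γ i) ω * fac η β i (γ' i) ω) := fun γ γ' => (hmp γ γ').const_mul _
  simp only [h1]
  rw [lintegral_tsum fun γ => (Measurable.tsum fun γ' => hm γ γ').aemeasurable]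
  refine tsum_congr fun γ => ?_
  rw [lintegral_tsum fun γ' => (hm γ γ').aemeasurable]
  refine tsum_congr fun γ' => ?_
  rw [lintegral_const_mul _ (hmp γ γ')]
  congr 1
  unfold envLaw
  rw [Q209.Prod.lintegral_prod_of_dep η (fun i ω => fac η β i (γ i) ω * fac η β i (γ' i) ω)
    (fun i => {((i.val + 1, γ i) : ℕ × V), (i.val + 1, γ' i)})
    (fun i => hmf i.val (γ i) (γ' i)) ?_ ?_]
  · refine Finset.prod_congr rfl fun i _ => ?_
    have := pair_int hη β i (γ i) (γ' i)
    unfold envLaw at this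
    exact this
  · intro i ω ω' h
    unfold fac
    rw [h (i.val + 1, γ i) (by simp), h (i.val + 1, γ' i) (by simp)]
  · intro i j hij
    rw [Finset.disjoint_left]
    intro a ha ha'
    simp only [Finset.mem_insert, Finset.mem_singleton] at ha ha'
    apply hij
    apply Fin.ext
    have e1 : a.1 = i.val + 1 := by rcases ha with rfl | rfl <;> rfl
    have e2 : a.1 = j.val + 1 := by rcases ha' with rfl | rfl <;> rfl
    omega

theorem path_cons {n : ℕ} (x z : V) (γ : Fin n → V) :
    pathProb P x (Fin.cons z γ : Fin (n + 1) → V) = P x z * pathProb P z γ := by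
  unfold pathProb
  rw [Fin.prod_univ_succ]
  rfl

open Classical in
theorem U_succ (K : ENNReal) (n : ℕ) (x y : V) :
    U P K (n + 1) x y = ∑' z, ∑' z', P x z * P y z' * ((if z = z' then K else 1) * U P K n z z') := by
  unfold U
  rw [← (Fin.consEquiv fun _ : Fin (n + 1) => V).tsum_eq, ENNReal.tsum_prod']
  refine tsum_congr fun z => ?_
  have h1 : ∀ γ : Fin n → V, (∑' γ' : Fin (n + 1) → V,
      pathProb P x ((Fin.consEquiv fun _ : Fin (n + 1) => V) (z, γ)) * pathProb P y γ' *
      ∏ i, (if (Fin.consEquiv fun _ : Fin (n + 1) => V) (z, γ) i = γ' i then K else 1)) =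
      ∑' z', ∑' γ' : Fin n → V, P x z * pathProb P z γ * (P y z' * pathProb P z' γ') *
        ((if z = z' then K else 1) * ∏ i, (if γ i = γ' i then K else 1)) := by
    intro γ
    rw [← (Fin.consEquiv fun _ : Fin (n + 1) => V).tsum_eq, ENNReal.tsum_prod']
    refine tsum_congr fun z' => tsum_congr fun γ' => ?_
    have e1 : pathProb P x ((Fin.consEquiv fun _ : Fin (n + 1) => V) (z, γ)) =
      P x z * pathProb P z γ := path_cons x z γ
    have e2 : pathProb P y ((Fin.consEquiv fun _ : Fin (n + 1) => V) (z', γ')) =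
      P y z' * pathProb P z' γ' := path_cons y z' γ'
    rw [e1, e2, Fin.prod_univ_succ]
    simp only [Fin.consEquiv_apply, Fin.cons_zero, Fin.cons_succ]
  simp only [h1]
  rw [ENNReal.tsum_comm]
  refine tsum_congr fun z' => ?_
  rw [← ENNReal.tsum_mul_left, ← ENNReal.tsum_mul_left]
  refine tsum_congr fun γ => ?_
  rw [← ENNReal.tsum_mul_left, ← ENNReal.tsum_mul_left]
  refine tsum_congr fun γ' => ?_
  ring

/-- collision probabilities of two independent copies -/
def D (P : V → V → ENNReal) (k : ℕ) (x y : V) : ENNReal := ∑' z, pow P k x z * pow P k y z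

theorem D_succ (k : ℕ) (x y : V) : D P (k + 1) x y = ∑' z, ∑' z', P x z * P y z' * D P k z z' := by
  unfold D
  simp only [pow]
  calc ∑' w, (∑' z, P x z * pow P k z w) * ∑' z', P y z' * pow P k z' w
      = ∑' w, ∑' z, ∑' z', P x z * P y z' * (pow P k z w * pow P k z' w) := by
        refine tsum_congr fun w => ?_
        rw [← ENNReal.tsum_mul_right]
        refine tsum_congr fun z => ?_
        rw [← ENNReal.tsum_mul_left]
        refine tsum_congr fun z' => ?_
        ring
    _ = ∑' z, ∑' w, ∑' z', P x z * P y z' * (pow P k z w * pow P k z' w) := ENNReal.tsum_comm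
    _ = ∑' z, ∑' z', ∑' w, P x z * P y z' * (pow P k z w * pow P k z' w) :=
        tsum_congr fun z => ENNReal.tsum_comm
    _ = ∑' z, ∑' z', P x z * P y z' * ∑' w, pow P k z w * pow P k z' w := by
        simp only [ENNReal.tsum_mul_left]

open Classical in
theorem D_zero (x y : V) : D P 0 x y = if x = y then 1 else 0 := by
  unfold D pow
  rw [tsum_eq_single x]
  · simp only [if_true, one_mul, eq_comm]
  · intro z hz
    rw [if_neg (Ne.symm hz), zero_mul]

/-- expected number of collisions -/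
def GG (P : V → V → ENNReal) (x y : V) : ENNReal := ∑' k, D P (k + 1) x y

theorem GG_eq (x y : V) : GG P x y = D P 1 x y + ∑' k, D P (k + 2) x y := by
  unfold GG
  rw [tsum_eq_zero_add' ENNReal.summable]

theorem U_zero (K : ENNReal) (x y : V) : U P K 0 x y = 1 := by
  unfold U
  rw [tsum_eq_single (fun i : Fin 0 => i.elim0), tsum_eq_single (fun i : Fin 0 => i.elim0)]
  · simp [pathProb]
  · intro b hb
    exact absurd (Subsingleton.elim _ _) hb
  · intro b hb
    exact absurd (Subsingleton.elim _ _) hb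

open Classical in
/-- bounded number of collisions implies bounded pair partition functions -/
theorem U_le (hrow : ∀ x, ∑' y, P x y = 1) {F c : ENNReal} (hF : ∀ x y, GG P x y ≤ F)
    (hc : 2 * c * F ≤ 1) (n : ℕ) (x y : V) : U P (1 + c) n x y ≤ 1 + 2 * c * GG P x y := by
  induction n generalizing x y with
  | zero =>
    rw [U_zero]
    exact le_self_add
  | succ n ih =>
    rw [U_succ]
    have hPP : ∀ x y, ∑' z, ∑' z', P x z * P y z' = 1 := by
      intro x y
      simp only [ENNReal.tsum_mul_left, hrow, mul_one]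
    have hpt : ∀ z z', (if z = z' then (1 + c) else 1) * U P (1 + c) n z z' ≤
        1 + 2 * c * GG P z z' + 2 * c * D P 0 z z' := by
      intro z z'
      have h1 := ih z z'
      rw [D_zero]
      split_ifs with h
      · have h2 : 1 + 2 * c * GG P z z' ≤ 2 := by
          calc 1 + 2 * c * GG P z z' ≤ 1 + 2 * c * F := by gcongr; exact hF z z'
            _ ≤ 1 + 1 := by gcongr
            _ = 2 := one_add_one_eq_two
        calc (1 + c) * U P (1 + c) n z z' = U P (1 + c) n z z' + c * U P (1 + c) n z z' := by ring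
          _ ≤ (1 + 2 * c * GG P z z') + c * 2 := by
              gcongr
              exact h1.trans h2
          _ = 1 + 2 * c * GG P z z' + 2 * c * 1 := by ring
      · rw [one_mul, mul_zero, add_zero]
        exact h1
    calc ∑' z, ∑' z', P x z * P y z' * ((if z = z' then (1 + c) else 1) * U P (1 + c) n z z')
        ≤ ∑' z, ∑' z', P x z * P y z' * (1 + 2 * c * GG P z z' + 2 * c * D P 0 z z') :=
          ENNReal.tsum_le_tsum fun z => ENNReal.tsum_le_tsum fun z' => by
            gcongr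
            exact hpt z z'
      _ = ∑' z, ∑' z', (P x z * P y z' + 2 * c * (P x z * P y z' * GG P z z') +
            2 * c * (P x z * P y z' * D P 0 z z')) :=
          tsum_congr fun z => tsum_congr fun z' => by ring
      _ = 1 + 2 * c * (∑' z, ∑' z', P x z * P y z' * GG P z z') +
            2 * c * (∑' z, ∑' z', P x z * P y z' * D P 0 z z') := by
          simp only [ENNReal.tsum_add, ENNReal.tsum_mul_left, hrow, mul_one]
      _ = 1 + 2 * c * (∑' k, D P (k + 2) x y) + 2 * c * D P 1 x y := by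
          rw [← D_succ 0]
          congr 3
          unfold GG
          calc ∑' z, ∑' z', P x z * P y z' * ∑' k, D P (k + 1) z z'
              = ∑' z, ∑' z', ∑' k, P x z * P y z' * D P (k + 1) z z' := by
                simp only [ENNReal.tsum_mul_left]
            _ = ∑' z, ∑' k, ∑' z', P x z * P y z' * D P (k + 1) z z' :=
                tsum_congr fun z => ENNReal.tsum_comm
            _ = ∑' k, ∑' z, ∑' z', P x z * P y z' * D P (k + 1) z z' := ENNReal.tsum_comm
            _ = ∑' k, D P (k + 2) x y := tsum_congr fun k => (D_succ (k + 1) x y).symm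
      _ = 1 + 2 * c * GG P x y := by
          rw [GG_eq]; ring

/-- If the expected number of collisions is bounded, then `β₂ > 0`. -/
theorem beta2_pos [Countable V] (hrow : ∀ x, ∑' y, P x y = 1) {F : ENNReal} (hFtop : F ≠ ⊤)
    (hF : ∀ x y, GG P x y ≤ F) (hη : IsEnv η) : 0 < beta2 P η := by
  have := hη.prob
  -- continuity of `K` at `0`
  have hcont : Continuous fun t => mgf id η t := continuous_mgf (X := id) hη.expo
  have hpos : ∀ t, 0 < mgf id η t := fun t => mgf_pos (X := id) (hη.expo t)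
  have hK : Continuous fun β : ℝ => Real.exp (cgf id η (2 * β) - 2 * cgf id η β) := by
    have h1 : Continuous fun t => cgf id η t := by
      unfold cgf
      exact hcont.log fun t => (hpos t).ne'
    exact Real.continuous_exp.comp ((h1.comp (continuous_const.mul continuous_id)).sub
      (continuous_const.mul h1))
  have hK0 : Real.exp (cgf id η (2 * 0) - 2 * cgf id η 0) = 1 := by
    simp [cgf_zero]
  set f : ℝ := F.toReal with hf
  have hf0 : 0 ≤ f := ENNReal.toReal_nonneg
  have hev : ∀ᶠ β in 𝓝 (0 : ℝ), Real.exp (cgf id η (2 * β) - 2 * cgf id η β) <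
      1 + 1 / (2 * (f + 1)) := by
    have h1 := hK.tendsto 0
    have h2 : (1 : ℝ) < 1 + 1 / (2 * (f + 1)) := by
      have : 0 < 1 / (2 * (f + 1)) := by positivity
      linarith
    rw [hK0] at h1
    exact h1.eventually (gt_mem_nhds h2)
  obtain ⟨e, he, hball⟩ := Metric.eventually_nhds_iff.1 hev
  have hb : 0 < e / 2 := by linarith
  set b : NNReal := ⟨e / 2, hb.le⟩ with hbdef
  have hbb : Real.exp (cgf id η (2 * b) - 2 * cgf id η b) < 1 + 1 / (2 * (f + 1)) := by
    apply hball
    rw [Real.dist_eq, sub_zero]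
    change |e / 2| < e
    rw [abs_of_pos hb]
    linarith
  set c : ENNReal := ENNReal.ofReal (1 / (2 * (f + 1))) with hc
  have hKle : KK η b ≤ 1 + c := by
    unfold KK
    rw [hc, ← ENNReal.ofReal_one, ← ENNReal.ofReal_add zero_le_one (by positivity)]
    exact ENNReal.ofReal_le_ofReal hbb.le
  have hcF : 2 * c * F ≤ 1 := by
    have e1 : F = ENNReal.ofReal f := (ENNReal.ofReal_toReal hFtop).symm
    rw [hc, e1, show (2 : ENNReal) = ENNReal.ofReal 2 by simp,
      ← ENNReal.ofReal_mul (by norm_num), ← ENNReal.ofReal_mul (by positivity),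
      ← ENNReal.ofReal_one]
    apply ENNReal.ofReal_le_ofReal
    have : 2 * (1 / (2 * (f + 1))) * f = f / (f + 1) := by field_simp
    rw [this, div_le_one (by linarith)]
    linarith
  have hU : ∀ n x, ∫⁻ ω, W P η b n x ω ^ 2 ∂(envLaw V η) ≤ 2 := by
    intro n x
    rw [second_moment hη.expo]
    have hmono : U P (KK η b) n x x ≤ U P (1 + c) n x x := by
      unfold U
      refine ENNReal.tsum_le_tsum fun γ => ENNReal.tsum_le_tsum fun γ' => ?_
      gcongr with i _
      split_ifs
      · exact hKle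
      · exact le_rfl
    refine hmono.trans ((U_le hrow hF hcF n x x).trans ?_)
    calc 1 + 2 * c * GG P x x ≤ 1 + 2 * c * F := by gcongr; exact hF x x
      _ ≤ 1 + 1 := by gcongr
      _ = 2 := one_add_one_eq_two
  have hle : (b : ENNReal) ≤ beta2 P η := by
    unfold beta2
    exact le_iSup₂_of_le b (fun x => ⟨2, by norm_num, fun n => hU n x⟩) le_rfl
  refine lt_of_lt_of_le ?_ hle
  rw [ENNReal.coe_pos]
  exact hb

end second

/-! ### The example: simple random walk on `ℤ²` with the vertex `z` replaced by `N z` copies -/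

/-- numbers of copies -/
def N (z : ℤ × ℤ) : ℕ := 2 ^ Encodable.encode z

theorem N_pos (z : ℤ × ℤ) : 0 < N z := by unfold N; positivity

/-- the vertices -/
abbrev VV : Type := Σ z : ℤ × ℤ, Fin (N z)

/-- the four unit vectors -/
def dirs : Finset (ℤ × ℤ) := {(1, 0), (-1, 0), (0, 1), (0, -1)}

/-- the transition matrix: a uniform step of simple random walk followed by the choice of a
uniform copy of the new site -/
def PP (x y : VV) : ENNReal := if y.1 - x.1 ∈ dirs then (4 : ENNReal)⁻¹ * (N y.1 : ENNReal)⁻¹ else 0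

/-- the graph: copies of neighbouring sites are adjacent -/
def GR : SimpleGraph VV where
  Adj x y := y.1 - x.1 ∈ dirs
  symm := ⟨by
    intro x y h
    have : x.1 - y.1 = -(y.1 - x.1) := by ring
    rw [this]
    simp only [dirs, Finset.mem_insert, Finset.mem_singleton] at h ⊢
    rcases h with h | h | h | h <;> rw [h] <;> simp⟩
  loopless := ⟨by
    intro x h
    rw [sub_self] at h
    revert h
    decide⟩

theorem N_ne (z : ℤ × ℤ) : (N z : ENNReal) ≠ 0 := by
  have := N_pos z
  exact_mod_cast this.ne'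

/-- two-dimensional random walk probabilities -/
def r (k : ℕ) (z : ℤ × ℤ) : ENNReal := Q209.Poly.q k (z.1 + z.2) * Q209.Poly.q k (z.1 - z.2)

theorem r_zero (z : ℤ × ℤ) : r 0 z = if z = 0 then 1 else 0 := by
  unfold r Q209.Poly.q
  by_cases hz : z = 0
  · subst hz; simp
  · rw [if_neg hz]
    by_cases h1 : z.1 + z.2 = 0
    · by_cases h2 : z.1 - z.2 = 0
      · exfalso
        apply hz
        apply Prod.ext
        · change z.1 = 0; omega
        · change z.2 = 0; omega
      · rw [if_neg h2, mul_zero]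
    · rw [if_neg h1, zero_mul]

theorem dir_sum (f : ℤ × ℤ → ENNReal) :
    ∑ e ∈ dirs, f e = f (1, 0) + f (-1, 0) + f (0, 1) + f (0, -1) := by
  unfold dirs
  rw [Finset.sum_insert (by decide), Finset.sum_insert (by decide), Finset.sum_insert (by decide),
    Finset.sum_singleton]
  ring

theorem r_succ (k : ℕ) (z : ℤ × ℤ) : r (k + 1) z = 4⁻¹ * ∑ e ∈ dirs, r k (z - e) := by
  rw [dir_sum]
  obtain ⟨a, b⟩ := z
  unfold r
  simp only [Q209.Poly.q, Prod.fst_sub, Prod.snd_sub]
  have e1 : a - 1 + (b - 0) = a + b - 1 := by ring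
  have e2 : a - 1 - (b - 0) = a - b - 1 := by ring
  have e3 : a - -1 + (b - 0) = a + b + 1 := by ring
  have e4 : a - -1 - (b - 0) = a - b + 1 := by ring
  have e5 : a - 0 + (b - 1) = a + b - 1 := by ring
  have e6 : a - 0 - (b - 1) = a - b + 1 := by ring
  have e7 : a - 0 + (b - -1) = a + b + 1 := by ring
  have e8 : a - 0 - (b - -1) = a - b - 1 := by ring
  rw [e1, e2, e3, e4, e5, e6, e7, e8]
  have h4 : (4 : ENNReal)⁻¹ = 2⁻¹ * 2⁻¹ := by
    rw [← ENNReal.mul_inv (by simp) (by simp)]; norm_num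
  rw [h4, div_eq_mul_inv, div_eq_mul_inv]
  ring

theorem r_le (k : ℕ) (z : ℤ × ℤ) : r (k + 1) z ≤ ((k + 1 : ℕ) : ENNReal)⁻¹ :=
  Q209.Poly.q_mul_le (k + 1) (by omega) _ _

/-- summation over one step -/
theorem PP_sum (x : VV) (f : ℤ × ℤ → ENNReal) :
    ∑' y, PP x y * f y.1 = 4⁻¹ * ∑ e ∈ dirs, f (x.1 + e) := by
  rw [ENNReal.tsum_sigma']
  have h1 : ∀ z : ℤ × ℤ, ∑' b : Fin (N z), PP x ⟨z, b⟩ * f z =
      if z - x.1 ∈ dirs then 4⁻¹ * f z else 0 := by
    intro z
    unfold PP
    rw [tsum_fintype]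
    simp only
    rw [Finset.sum_const, Finset.card_univ, Fintype.card_fin, nsmul_eq_mul]
    split_ifs
    · calc (N z : ENNReal) * (4⁻¹ * (N z : ENNReal)⁻¹ * f z)
          = ((N z : ENNReal) * (N z : ENNReal)⁻¹) * (4⁻¹ * f z) := by ring
        _ = 4⁻¹ * f z := by
            rw [ENNReal.mul_inv_cancel (N_ne z) (ENNReal.natCast_ne_top _), one_mul]
    · simp
  simp only [h1]
  rw [← (Equiv.addLeft x.1).tsum_eq, tsum_eq_sum (s := dirs)]
  · rw [Finset.mul_sum]
    refine Finset.sum_congr rfl fun e he => ?_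
    simp only [Equiv.coe_addLeft, add_sub_cancel_left]
    rw [if_pos he]
  · intro e he
    simp only [Equiv.coe_addLeft, add_sub_cancel_left]
    rw [if_neg he]

theorem PP_row (x : VV) : ∑' y, PP x y = 1 := by
  have h := PP_sum x (fun _ => 1)
  simp only [mul_one] at h
  rw [h]
  have : Finset.sum dirs (fun _ => (1 : ENNReal)) = 4 := by
    rw [dir_sum (fun _ => (1 : ENNReal))]; norm_num
  rw [this]
  exact ENNReal.inv_mul_cancel (by simp) (by simp)

theorem pow_formula (k : ℕ) (x y : VV) :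
    pow PP (k + 1) x y = r (k + 1) (y.1 - x.1) * (N y.1 : ENNReal)⁻¹ := by
  induction k generalizing x with
  | zero =>
    have h1 : pow PP 1 x y = PP x y := by
      simp only [pow]
      rw [tsum_eq_single y]
      · simp
      · intro z hz
        rw [if_neg hz, mul_zero]
    rw [h1, r_succ]
    simp only [r_zero, sub_eq_zero]
    unfold PP
    rw [Finset.sum_ite_eq]
    split_ifs <;> simp
  | succ k ih =>
    have h1 : pow PP (k + 1 + 1) x y = ∑' z, PP x z * pow PP (k + 1) z y := rfl
    rw [h1]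
    simp only [ih]
    rw [PP_sum x (fun z => r (k + 1) (y.1 - z) * (N y.1 : ENNReal)⁻¹), r_succ (k + 1),
      ← Finset.sum_mul]
    have hs : Finset.sum dirs (fun e => r (k + 1) (y.1 - (x.1 + e))) =
        Finset.sum dirs (fun e => r (k + 1) (y.1 - x.1 - e)) :=
      Finset.sum_congr rfl fun e _ => by rw [sub_add_eq_sub_sub]
    rw [hs, mul_assoc]

theorem sum_N : ∑' z : ℤ × ℤ, (N z : ENNReal)⁻¹ ≤ 2 := by
  have h1 : ∀ z : ℤ × ℤ, (N z : ENNReal)⁻¹ = (fun n : ℕ => (2 : ENNReal)⁻¹ ^ n)
      (Encodable.encode z) := by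
    intro z
    unfold N
    push_cast
    rw [ENNReal.inv_pow]
  simp only [h1]
  refine (ENNReal.tsum_comp_le_tsum_of_injective Encodable.encode_injective
    (fun n : ℕ => (2 : ENNReal)⁻¹ ^ n)).trans ?_
  rw [ENNReal.tsum_geometric]
  rw [ENNReal.one_sub_inv_two, inv_inv]

theorem D_le (k : ℕ) (x y : VV) : D PP (k + 1) x y ≤ (((k + 1 : ℕ) : ENNReal)⁻¹) ^ 2 * 2 := by
  unfold D
  have h1 : ∀ z : VV, pow PP (k + 1) x z * pow PP (k + 1) y z ≤
      (((k + 1 : ℕ) : ENNReal)⁻¹) ^ 2 * ((N z.1 : ENNReal)⁻¹ * (N z.1 : ENNReal)⁻¹) := by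
    intro z
    rw [pow_formula, pow_formula]
    calc r (k + 1) (z.1 - x.1) * (N z.1 : ENNReal)⁻¹ * (r (k + 1) (z.1 - y.1) * (N z.1 : ENNReal)⁻¹)
        ≤ ((k + 1 : ℕ) : ENNReal)⁻¹ * (N z.1 : ENNReal)⁻¹ *
          (((k + 1 : ℕ) : ENNReal)⁻¹ * (N z.1 : ENNReal)⁻¹) := by
          gcongr
          · exact r_le k _
          · exact r_le k _
      _ = _ := by ring
  refine (ENNReal.tsum_le_tsum h1).trans ?_
  rw [ENNReal.tsum_mul_left]
  gcongr
  rw [ENNReal.tsum_sigma']
  refine le_trans (le_of_eq ?_) sum_N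
  refine tsum_congr fun z => ?_
  rw [tsum_fintype]
  change Finset.sum Finset.univ (fun _ : Fin (N z) => (N z : ENNReal)⁻¹ * (N z : ENNReal)⁻¹) = _
  rw [Finset.sum_const, Finset.card_univ, Fintype.card_fin, nsmul_eq_mul, ← mul_assoc,
    ENNReal.mul_inv_cancel (N_ne z) (ENNReal.natCast_ne_top _), one_mul]

theorem F_ne_top : ∑' k : ℕ, (((k + 1 : ℕ) : ENNReal)⁻¹) ^ 2 * 2 ≠ ⊤ := by
  rw [ENNReal.tsum_mul_right]
  refine ENNReal.mul_ne_top ?_ (by simp)
  have h1 : ∀ k : ℕ, (((k + 1 : ℕ) : ENNReal)⁻¹) ^ 2 = ENNReal.ofReal (1 / ((k + 1 : ℕ) : ℝ) ^ 2) := by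
    intro k
    rw [ENNReal.ofReal_div_of_pos (by positivity), ENNReal.ofReal_one,
      ENNReal.ofReal_pow (by positivity), ENNReal.ofReal_natCast, one_div, ENNReal.inv_pow]
  simp only [h1]
  have hs : Summable fun k : ℕ => 1 / ((k + 1 : ℕ) : ℝ) ^ 2 :=
    (summable_nat_add_iff 1).2 (Real.summable_one_div_nat_pow.2 (by norm_num : 1 < 2))
  exact hs.tsum_ofReal_ne_top

theorem recurrent : Recurrent PP := by
  intro x
  have h1 : ∀ m : ℕ, (((4 * (m + 1) : ℕ) : ENNReal))⁻¹ * (N x.1 : ENNReal)⁻¹ ≤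
      pow PP (2 * (m + 1)) x x := by
    intro m
    rw [show 2 * (m + 1) = (2 * m + 1) + 1 by ring, pow_formula, sub_self]
    gcongr
    have := Q209.Poly.q_zero_ge (m + 1) (by omega)
    rw [show 2 * (m + 1) = 2 * m + 1 + 1 by ring] at this
    simpa [r] using this
  have h2 : ∑' m : ℕ, (((4 * (m + 1) : ℕ) : ENNReal))⁻¹ * (N x.1 : ENNReal)⁻¹ ≤
      ∑' n, pow PP n x x := by
    refine (ENNReal.tsum_le_tsum h1).trans ?_
    exact ENNReal.tsum_comp_le_tsum_of_injective
      (f := fun m : ℕ => 2 * (m + 1)) (fun a b hab => by simp only at hab; omega)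
      (fun n => pow PP n x x)
  rw [eq_top_iff]
  refine le_trans (le_of_eq ?_) h2
  rw [ENNReal.tsum_mul_right]
  have h3 : ∑' m : ℕ, (((4 * (m + 1) : ℕ) : ENNReal))⁻¹ = ⊤ := by
    by_contra hne
    have h4 := ENNReal.summable_toReal hne
    have h5 : Summable fun m : ℕ => 4 * (((4 * (m + 1) : ℕ) : ENNReal)⁻¹).toReal := h4.mul_left 4
    have h6 : ∀ m : ℕ, 4 * (((4 * (m + 1) : ℕ) : ENNReal)⁻¹).toReal = 1 / ((m + 1 : ℕ) : ℝ) := by
      intro m
      rw [ENNReal.toReal_inv, ENNReal.toReal_natCast]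
      push_cast
      field_simp
    simp only [h6] at h5
    exact Real.not_summable_one_div_natCast ((summable_nat_add_iff 1).1 h5)
  rw [h3, ENNReal.top_mul (ENNReal.inv_ne_zero.2 (ENNReal.natCast_ne_top _))]

theorem PP_ne {x y : VV} (h : y.1 - x.1 ∈ dirs) : PP x y ≠ 0 := by
  unfold PP
  rw [if_pos h]
  exact mul_ne_zero (ENNReal.inv_ne_zero.2 (by simp))
    (ENNReal.inv_ne_zero.2 (ENNReal.natCast_ne_top _))

/-- a copy of a site -/
def cp (z : ℤ × ℤ) : VV := ⟨z, ⟨0, N_pos z⟩⟩

abbrev RR (x y : VV) : Prop := Relation.ReflTransGen (fun a b => PP a b ≠ 0) x y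

theorem reach_add (x : VV) (e : ℤ × ℤ) (he : e ∈ dirs) (n : ℕ) (z : ℤ × ℤ)
    (h : ∃ y : VV, y.1 = z ∧ RR x y) : ∃ y : VV, y.1 = z + n • e ∧ RR x y := by
  induction n with
  | zero => simpa using h
  | succ n ih =>
    obtain ⟨y, hy, hR⟩ := ih
    refine ⟨cp (y.1 + e), ?_, hR.tail (PP_ne ?_)⟩
    · change y.1 + e = _
      rw [hy, succ_nsmul, add_assoc]
    · change y.1 + e - y.1 ∈ dirs
      rwa [add_sub_cancel_left]

theorem reach_site (x : VV) (z : ℤ × ℤ) : ∃ y : VV, y.1 = z ∧ RR x y := by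
  have h0 : ∃ y : VV, y.1 = x.1 ∧ RR x y := ⟨x, rfl, Relation.ReflTransGen.refl⟩
  obtain ⟨a, b⟩ := z
  -- first coordinate
  have h1 : ∃ y : VV, y.1 = (a, x.1.2) ∧ RR x y := by
    rcases le_total x.1.1 a with h | h
    · have := reach_add x (1, 0) (by decide) (a - x.1.1).toNat x.1 h0
      convert this using 4
      apply Prod.ext
      · simp [Int.toNat_of_nonneg (sub_nonneg.2 h)]
      · simp
    · have := reach_add x (-1, 0) (by decide) (x.1.1 - a).toNat x.1 h0
      convert this using 4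
      apply Prod.ext
      · simp [Int.toNat_of_nonneg (sub_nonneg.2 h)]
      · simp
  rcases le_total x.1.2 b with h | h
  · have := reach_add x (0, 1) (by decide) (b - x.1.2).toNat (a, x.1.2) h1
    convert this using 4
    apply Prod.ext
    · simp
    · simp [Int.toNat_of_nonneg (sub_nonneg.2 h)]
  · have := reach_add x (0, -1) (by decide) (x.1.2 - b).toNat (a, x.1.2) h1
    convert this using 4
    apply Prod.ext
    · simp
    · simp [Int.toNat_of_nonneg (sub_nonneg.2 h)]

theorem irred (x t : VV) : RR x t := by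
  obtain ⟨y, hy, hR⟩ := reach_site x (t.1 + (1, 0))
  refine hR.tail (PP_ne ?_)
  rw [hy]
  have : t.1 - (t.1 + (1, 0)) = (-1, 0) := by
    rw [sub_add_cancel_left]; rfl
  rw [this]
  decide

theorem walk : IsWalk GR PP := by
  refine ⟨PP_row, ?_, ?_, irred⟩
  · intro x y h
    by_contra hc
    apply h
    unfold PP
    exact if_neg hc
  · intro x
    have hsub : {y | PP x y ≠ 0} ⊆ ⋃ e ∈ dirs, Set.range fun b : Fin (N (x.1 + e)) =>
        (⟨x.1 + e, b⟩ : VV) := by
      intro y hy
      have hd : y.1 - x.1 ∈ dirs := by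
        by_contra hc
        apply hy
        unfold PP
        exact if_neg hc
      simp only [Set.mem_iUnion]
      obtain ⟨z, b⟩ := y
      have hz : z = x.1 + (z - x.1) := by ring
      refine ⟨z - x.1, hd, ?_⟩
      rw [← hz]
      exact ⟨b, rfl⟩
    exact (dirs.finite_toSet.biUnion fun e _ => Set.finite_range _).subset hsub

theorem reversible : Reversible PP := by
  refine ⟨fun x => (N x.1 : ENNReal)⁻¹, fun x => ⟨ENNReal.inv_ne_zero.2 (ENNReal.natCast_ne_top _),
    ENNReal.inv_ne_top.2 (N_ne _)⟩, ?_⟩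
  intro x y
  have hsym : y.1 - x.1 ∈ dirs ↔ x.1 - y.1 ∈ dirs :=
    ⟨fun h => (GR.symm.symm x y h : GR.Adj y x), fun h => (GR.symm.symm y x h : GR.Adj x y)⟩
  unfold PP
  by_cases h : y.1 - x.1 ∈ dirs
  · rw [if_pos h, if_pos (hsym.1 h)]; ring
  · rw [if_neg h, if_neg (fun hh => h (hsym.2 hh)), mul_zero, mul_zero]

theorem connected : GR.Connected := by
  have : Nonempty VV := ⟨cp 0⟩
  have h : ∀ x y : VV, GR.Reachable x y := by
    intro x y
    have hR := irred x y
    induction hR with
    | refl => exact SimpleGraph.Reachable.refl _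
    | tail _ hs ih => exact ih.trans (walk.near _ _ hs).reachable
  exact ⟨h⟩

/-- There is a connected graph with a reversible recurrent irreducible nearest-neighbour Markov
chain on it such that `β₂ > 0` for the directed polymer driven by this chain, for every
environment law (with mean `0`, variance `1` and all exponential moments). -/
theorem result : ∃ (V : Type) (_ : Countable V) (_ : Infinite V) (G : SimpleGraph V)
    (P : V → V → ENNReal), G.Connected ∧ IsWalk G P ∧ Reversible P ∧ Recurrent P ∧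
      ∀ η : Measure ℝ, IsEnv η → 0 < beta2 P η := by
  refine ⟨VV, inferInstance, ?_, GR, PP, connected, walk, reversible, recurrent, fun η hη => ?_⟩
  · exact Infinite.of_injective cp fun a b h => (Sigma.mk.inj_iff.1 h).1
  · exact beta2_pos PP_row F_ne_top (fun x y => ENNReal.tsum_le_tsum fun k => D_le k x y) hη

end

end Pool.Agent.Results.MP_6abe48_pr.ReversibleRecurrent
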